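import Mathlib
import Pool.Agent.Y970.PX.Stm

/-!
Project PX (helper970), part INC: boundedly many rows carry a large least common multiple in almost
all columns.
-/

set_option autoImplicit false

open Finset

namespace Pool.Agent.Y381.PX

/-- the new factor of the entry `i` over the earlier ones -/
def inc {s : ℕ} (g : Fin s → ℕ) (i : Fin s) : ℕ :=
  g i / Nat.gcd (g i) ((univ.filter (fun a => a < i)).lcm g)

theorem inc_pos {s : ℕ} {g : Fin s → ℕ} (hg : ∀ i, 1 ≤ g i) (i : Fin s) : 1 ≤ inc g i :=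
  Nat.div_pos (Nat.gcd_le_left _ (hg i)) (Nat.gcd_pos_of_pos_left _ (hg i))

theorem inc_le {s : ℕ} (g : Fin s → ℕ) (i : Fin s) : inc g i ≤ g i := Nat.div_le_self _ _

theorem lcm_eq (a b : ℕ) : Nat.lcm a b = a / Nat.gcd a b * b := by
  rw [Nat.div_mul_right_comm (Nat.gcd_dvd_left a b)]
  rfl

theorem lcm_pos {s : ℕ} {g : Fin s → ℕ} (hg : ∀ i, 1 ≤ g i) (A : Finset (Fin s)) :
    0 < A.lcm g := by
  refine Nat.pos_of_ne_zero fun h => ?_
  rw [Finset.lcm_eq_zero_iff] at h
  obtain ⟨i, _, hi⟩ := h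
  have := hg i
  omega

/-- the product of the new factors of a set of rows is at most the least common multiple -/
theorem prod_le {s : ℕ} {g : Fin s → ℕ} (hg : ∀ i, 1 ≤ g i) (A : Finset (Fin s)) :
    ∏ i ∈ A, inc g i ≤ A.lcm g := by
  induction A using Finset.induction_on_max with
  | empty => simp
  | insert a A ha ih =>
    have hn : a ∉ A := fun h => lt_irrefl a (ha a h)
    rw [Finset.prod_insert hn, Finset.lcm_insert]
    change _ ≤ Nat.lcm (g a) (A.lcm g)
    rw [lcm_eq]
    refine Nat.mul_le_mul ?_ ih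
    unfold inc
    have hsub : A.lcm g ∣ (univ.filter (fun b => b < a)).lcm g := by
      apply Finset.lcm_mono
      intro b hb
      exact mem_filter.2 ⟨mem_univ _, ha b hb⟩
    have h1 : Nat.gcd (g a) (A.lcm g) ∣ Nat.gcd (g a) ((univ.filter (fun b => b < a)).lcm g) :=
      Nat.gcd_dvd_gcd_of_dvd_right _ hsub
    exact Nat.div_le_div_left (Nat.le_of_dvd (Nat.gcd_pos_of_pos_left _ (hg a)) h1)
      (Nat.gcd_pos_of_pos_left _ (hg a))

/-- telescoping -/
theorem lcm_eq_prod {s : ℕ} (g : Fin s → ℕ) (m : ℕ) (hm : m ≤ s) :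
    (univ.filter (fun a : Fin s => a.val < m)).lcm g
      = ∏ i ∈ univ.filter (fun a : Fin s => a.val < m), inc g i := by
  induction m with
  | zero => simp
  | succ m ih =>
    have hms : m < s := hm
    have he : univ.filter (fun a : Fin s => a.val < m + 1)
        = insert (⟨m, hms⟩ : Fin s) (univ.filter (fun a : Fin s => a.val < m)) := by
      ext a
      simp only [mem_filter, mem_univ, true_and, mem_insert, Fin.ext_iff]
      omega
    have hn : (⟨m, hms⟩ : Fin s) ∉ univ.filter (fun a : Fin s => a.val < m) := by simp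
    have hl : univ.filter (fun a : Fin s => a < ⟨m, hms⟩)
        = univ.filter (fun a : Fin s => a.val < m) := by
      ext a
      simp [Fin.lt_def]
    rw [he, Finset.prod_insert hn, Finset.lcm_insert, ← ih hms.le]
    change Nat.lcm (g ⟨m, hms⟩) _ = _
    rw [lcm_eq]
    unfold inc
    rw [hl]

theorem lcm_univ {s : ℕ} (g : Fin s → ℕ) : univ.lcm g = ∏ i, inc g i := by
  have h := lcm_eq_prod g s le_rfl
  have : univ.filter (fun a : Fin s => a.val < s) = univ := by
    ext a; simp
  rwa [this] at h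

/-- boundedly many rows carry a large lcm in almost all columns -/
theorem main (hH : Pool.Agent.Y970.PX.HITStm) : Pool.Agent.Y970.PX.INCStm := by
  classical
  intro c κ hc hκ
  obtain ⟨T, s0, h0⟩ := hH (c / 2) κ ⌈2 / c⌉₊ (by positivity) hκ
  refine ⟨T, s0, fun s N hs hN g hg hL => ?_⟩
  have hN0 : (0 : ℝ) < N := by positivity
  have hN1 : (1 : ℝ) < N := by exact_mod_cast hN
  set I : Fin s → Finset (Fin s) := fun j =>
    univ.filter (fun i => (N : ℝ) ^ (c / 2) ≤ (inc (fun i => g i j) i : ℝ)) with hI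
  obtain ⟨A, B, hA, hB, hAB⟩ := h0 s hs I (by
    intro j
    have h1 := hL j
    rw [lcm_univ] at h1
    have h2 : ((∏ i, inc (fun i => g i j) i : ℕ) : ℝ)
        ≤ ∏ i : Fin s, (if i ∈ I j then (N : ℝ) else (N : ℝ) ^ (c / 2)) := by
      rw [Nat.cast_prod]
      apply Finset.prod_le_prod
      · intro i _
        positivity
      · intro i _
        split_ifs with h
        · exact_mod_cast (inc_le _ i).trans (hg i j).2
        · have h3 : ¬ (N : ℝ) ^ (c / 2) ≤ (inc (fun i => g i j) i : ℝ) := by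
            intro h4
            exact h (mem_filter.2 ⟨mem_univ _, h4⟩)
          exact (not_le.1 h3).le
    have h3 : ∏ i : Fin s, (if i ∈ I j then (N : ℝ) else (N : ℝ) ^ (c / 2))
        = (N : ℝ) ^ (((I j).card : ℝ) + c / 2 * ((s : ℝ) - (I j).card)) := by
      rw [Finset.prod_ite]
      have e1 : (univ.filter (fun i => i ∈ I j)) = I j := by ext i; simp
      have e2 : (univ.filter (fun i => i ∉ I j)) = (I j)ᶜ := by ext i; simp
      rw [e1, e2, Finset.prod_const, Finset.prod_const, Finset.card_compl, Fintype.card_fin,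
        Real.rpow_add hN0, Real.rpow_natCast, Real.rpow_mul hN0.le]
      congr 1
      have hle : (I j).card ≤ s := by
        have := Finset.card_le_univ (I j)
        rwa [Fintype.card_fin] at this
      rw [← Nat.cast_sub hle, Real.rpow_natCast]
    rw [h3] at h2
    have h4 := (Real.rpow_le_rpow_left_iff hN1).1 (h1.trans h2)
    have h5 : 0 ≤ c / 2 * ((I j).card : ℝ) := by positivity
    nlinarith)
  refine ⟨A, B, hA, hB, fun j hj => ?_⟩
  have h1 := hAB j hj
  have hg1 : ∀ i, 1 ≤ (fun i => g i j) i := fun i => (hg i j).1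
  have h2 : (A ∩ I j).lcm (fun i => g i j) ≤ A.lcm (fun i => g i j) :=
    Nat.le_of_dvd (lcm_pos hg1 A) (Finset.lcm_mono Finset.inter_subset_left)
  refine le_trans ?_ h2
  refine le_trans ?_ (prod_le hg1 (A ∩ I j))
  have h3 : (N : ℝ) ≤ ((∏ i ∈ A ∩ I j, inc (fun i => g i j) i : ℕ) : ℝ) := by
    rw [Nat.cast_prod]
    have h4 : ∏ _i ∈ A ∩ I j, ((N : ℝ) ^ (c / 2)) ≤ ∏ i ∈ A ∩ I j, (inc (fun i => g i j) i : ℝ) := by
      apply Finset.prod_le_prod
      · intro i _
        positivity
      · intro i hi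
        exact (mem_filter.1 (mem_inter.1 hi).2).2
    refine le_trans ?_ h4
    rw [Finset.prod_const, ← Real.rpow_natCast, ← Real.rpow_mul hN0.le]
    conv_lhs => rw [← Real.rpow_one (N : ℝ)]
    apply Real.rpow_le_rpow_of_exponent_le hN1.le
    have h5 : (2 / c : ℝ) ≤ ((A ∩ I j).card : ℝ) :=
      (Nat.le_ceil _).trans (by exact_mod_cast h1)
    have h6 : c / 2 * (2 / c) = 1 := by field_simp
    calc (1 : ℝ) = c / 2 * (2 / c) := h6.symm
      _ ≤ c / 2 * ((A ∩ I j).card : ℝ) := by gcongr
  exact_mod_cast h3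

end Pool.Agent.Y381.PX
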